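import Pool.Agent.Lib.MP_4fbe7c_an.ND.Iface
import Pool.Agent.Lib.MP_4fbe7c_an.ND.Base

/-! Module RNG (helper9): the steady state has its values between the bounds of `m`. -/

set_option autoImplicit false

open Set MeasureTheory Filter Topology

namespace Pool.Agent.Lib.MP_4fbe7c_an.ND.H9

theorem rng_st (hMxp : MxpStatement) : RngStatement := by
  intro p Ω q m a b d θ θ' θ'' hΩ hd hθ hm
  have hcl := hΩ.isCompact
  have c0 : ContinuousOn θ (closure Ω) := hθ.c2.toC1.c0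
  -- the maximum
  obtain ⟨x1, hx1, hmax⟩ := hcl.exists_isMaxOn hΩ.closure_nonempty c0
  obtain ⟨x2, hx2, hmin⟩ := hcl.exists_isMinOn hΩ.closure_nonempty c0
  have h1 := hMxp p Ω q θ θ' θ'' x1 hΩ hθ.c2 hθ.neu hx1 (fun y hy => hmax hy)
  have hneg : C2 Ω (fun x => (-1 : ℝ) * θ x) (fun x => (-1 : ℝ) • θ' x)
      (fun x => (-1 : ℝ) • θ'' x) :=
    ⟨hθ.c2.toC1.const_mul (-1), hθ.c2.c2.const_smul (-1 : ℝ),
      fun x hx => (hθ.c2.d2 x hx).fun_const_smul (-1 : ℝ)⟩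
  have h2 := hMxp p Ω q _ _ _ x2 hΩ hneg (Neu.smul (fun _ => (-1 : ℝ)) hθ.neu) hx2
    (fun y hy => by
      have := hmin hy
      simp only [mem_ofPred_eq] at this
      linarith)
  have e1 := hθ.eq x1 hx1
  have e2 := hθ.eq x2 hx2
  have p1 := hθ.pos x1 hx1
  have p2 := hθ.pos x2 hx2
  have t1 := h1.2
  have t2 := h2.2
  rw [tr_smul] at t2
  have g1 : 0 ≤ θ x1 * (m x1 - θ x1) := by
    have : d * tr (θ'' x1) ≤ 0 := mul_nonpos_of_nonneg_of_nonpos hd.le t1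
    linarith
  have g2 : θ x2 * (m x2 - θ x2) ≤ 0 := by
    have : 0 ≤ d * tr (θ'' x2) := mul_nonneg hd.le (by linarith)
    linarith
  have k1 : θ x1 ≤ m x1 := by
    by_contra hc
    push Not at hc
    nlinarith [mul_pos p1 (sub_pos.mpr hc)]
  have k2 : m x2 ≤ θ x2 := by
    by_contra hc
    push Not at hc
    nlinarith [mul_pos p2 (sub_pos.mpr hc)]
  intro x hx
  have hM := hmax hx
  have hm' := hmin hx
  simp only [mem_ofPred_eq] at hM hm'
  exact ⟨(hm x2 hx2).1.trans (k2.trans hm'), hM.trans (k1.trans (hm x1 hx1).2)⟩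

end Pool.Agent.Lib.MP_4fbe7c_an.ND.H9
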