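import Pool.Agent.Lib.MP_4fbe7c_an.ND.Iface
import Pool.Agent.Lib.MP_4fbe7c_an.ND.Base

/-! Module RTP (helper9): the time derivative of `∫ f P_c / P_k`. -/

set_option autoImplicit false

open Set MeasureTheory Filter Topology

namespace Pool.Agent.Lib.MP_4fbe7c_an.ND.H9

variable {p : ℕ} {Ω : Set (Eu p)} {q : Eu p → ℝ}

theorem C1.inv' {f : Eu p → ℝ} {f' : Eu p → Eu p} (hf : C1 Ω f f')
    (h0 : ∀ x ∈ closure Ω, f x ≠ 0) :
    C1 Ω (fun x => (f x)⁻¹) (fun x => (-(f x ^ 2)⁻¹) • f' x) := by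
  refine ⟨hf.c0.inv₀ h0, ?_, ?_⟩
  · exact ((hf.c0.pow 2).inv₀ (fun x hx => pow_ne_zero 2 (h0 x hx))).neg.smul hf.c1
  · intro x hx
    exact HasGradientAt.comp' (hasDerivAt_inv (h0 x (subset_closure hx))) (hf.d1 x hx)

section sol

variable {m : Eu p → ℝ} {n : ℕ} {ρ : ℕ → ℝ}
    {u : ℕ → ℝ → Eu p → ℝ} {v : ℕ → ℝ → Eu p → Eu p} {w : ℕ → ℝ → Eu p → Eu p →L[ℝ] Eu p}

theorem mem_le {k i : ℕ} (hk : k ≤ n) (hi : i ∈ Finset.range (k + 1)) : i ≤ n :=
  (Nat.lt_succ_iff.mp (Finset.mem_range.mp hi)).trans hk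

theorem Pk_pos (h : SolN Ω q m n ρ u v w) {k : ℕ} (hk : k ≤ n) {t : ℝ} (ht : 0 < t) {x : Eu p}
    (hx : x ∈ closure Ω) : 0 < Pk (fun i => u i t x) k :=
  Finset.sum_pos (fun i hi => h.pos i (mem_le hk hi) t ht x hx)
    ⟨0, Finset.mem_range.mpr (Nat.succ_pos k)⟩

theorem Pk_cont (h : SolN Ω q m n ρ u v w) {k : ℕ} (hk : k ≤ n) :
    ContinuousOn (fun a : ℝ × Eu p => Pk (fun i => u i a.1 a.2) k) (Ioi 0 ×ˢ closure Ω) :=
  continuousOn_finsetSum _ fun i hi =>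
    (h.evo i (mem_le hk hi)).cz.mono (prod_mono_left Ioi_subset_Ici_self)

theorem trw_cont (h : SolN Ω q m n ρ u v w) {k : ℕ} (hk : k ≤ n) :
    ContinuousOn (fun a : ℝ × Eu p => ∑ i ∈ Finset.range (k + 1), ρ i * tr (w i a.1 a.2))
      (Ioi 0 ×ˢ closure Ω) :=
  continuousOn_finsetSum _ fun i hi =>
    (continuous_tr.comp_continuousOn (h.evo i (mem_le hk hi)).cH).const_mul (ρ i)

theorem Pk_C1 (h : SolN Ω q m n ρ u v w) {k : ℕ} (hk : k ≤ n) {t : ℝ} (ht : 0 < t) :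
    C1 Ω (fun x => Pk (fun i => u i t x) k) (fun x => Pg (fun i => v i t x) k) :=
  C1.sum (Finset.range (k + 1)) fun i hi => (h.evo i (mem_le hk hi)).C1 ht

theorem Rg_cont (h : SolN Ω q m n ρ u v w) {k : ℕ} (hk : k ≤ n) {t : ℝ} (ht : 0 < t) :
    ContinuousOn (fun x => Rg ρ (fun i => v i t x) k) (closure Ω) :=
  continuousOn_finsetSum _ fun i hi =>
    ((h.evo i (mem_le hk hi)).C1 ht).c1.const_smul (ρ i)

theorem Rg_deriv (h : SolN Ω q m n ρ u v w) {k : ℕ} (hk : k ≤ n) {t : ℝ} (ht : 0 < t)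
    {x : Eu p} (hx : x ∈ Ω) :
    HasFDerivAt (fun x => Rg ρ (fun i => v i t x) k)
      (∑ i ∈ Finset.range (k + 1), ρ i • w i t x) x :=
  HasFDerivAt.fun_sum fun i hi =>
    ((h.evo i (mem_le hk hi)).dxx t ht x hx).fun_const_smul (ρ i)

theorem Rg_neu (h : SolN Ω q m n ρ u v w) {k : ℕ} (hk : k ≤ n) {t : ℝ} (ht : 0 < t) :
    Neu Ω q (fun x => Rg ρ (fun i => v i t x) k) :=
  Neu.sum (Finset.range (k + 1)) fun i hi =>
    Neu.smul (fun _ => ρ i) ((h.evo i (mem_le hk hi)).neu t ht)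

theorem W_cont (h : SolN Ω q m n ρ u v w) {k : ℕ} (hk : k ≤ n) {t : ℝ} (ht : 0 < t) :
    ContinuousOn (fun x => ∑ i ∈ Finset.range (k + 1), ρ i • w i t x) (closure Ω) :=
  continuousOn_finsetSum _ fun i hi =>
    ((h.evo i (mem_le hk hi)).C2 ht).c2.const_smul (ρ i)

theorem tr_W (k : ℕ) (t : ℝ) (x : Eu p) :
    tr (∑ i ∈ Finset.range (k + 1), ρ i • w i t x) =
      ∑ i ∈ Finset.range (k + 1), ρ i * tr (w i t x) := by
  rw [tr_sum]
  exact Finset.sum_congr rfl fun i _ => tr_smul _ _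

theorem Pk_dt (h : SolN Ω q m n ρ u v w) {k : ℕ} (hk : k ≤ n) {t : ℝ} (ht : 0 < t) {x : Eu p}
    (hx : x ∈ closure Ω) :
    HasDerivAt (fun s => Pk (fun i => u i s x) k)
      ((∑ i ∈ Finset.range (k + 1), ρ i * tr (w i t x)) +
        Pk (fun i => u i t x) k * (m x - ∑ j ∈ Finset.range (n + 1), u j t x)) t := by
  have h1 := HasDerivAt.fun_sum (u := Finset.range (k + 1)) (A := fun i r => u i r x)
    (A' := fun i => ρ i * tr (w i t x) + u i t x * (m x - ∑ j ∈ Finset.range (n + 1), u j t x))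
    (x := t) (fun i hi => (h.evo i (mem_le hk hi)).dt t ht x hx)
  rw [Finset.sum_add_distrib, ← Finset.sum_mul] at h1
  exact h1

end sol

theorem rtp_st (hDif : DifStatement) (hIbp : IbpStatement) : RtpNStatement := by
  intro p Ω q m n ρ u v w f f' c k h hc hk hf t ht
  have hΩ := h.dom
  have cf : ContinuousOn f (closure Ω) := hf.c0
  have spf : ContinuousOn (fun a : ℝ × Eu p => f a.2) (Ioi 0 ×ˢ closure Ω) :=
    cf.comp continuous_snd.continuousOn fun a ha => ha.2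
  have hne : ∀ a ∈ (Ioi (0 : ℝ)) ×ˢ (closure Ω), Pk (fun i => u i a.1 a.2) k ≠ 0 := fun a ha =>
    (Pk_pos h hk ha.1 ha.2).ne'
  let W : ℕ → ℝ → Eu p → ℝ := fun k s x => ∑ i ∈ Finset.range (k + 1), ρ i * tr (w i s x)
  have hD := hDif p Ω q
    (fun s x => f x * (Pk (fun i => u i s x) c / Pk (fun i => u i s x) k))
    (fun s x => f x * ((W c s x * Pk (fun i => u i s x) k - Pk (fun i => u i s x) c * W k s x) /
      Pk (fun i => u i s x) k ^ 2)) hΩ
    (spf.mul ((Pk_cont h hc).div (Pk_cont h hk) hne))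
    (spf.mul ((((trw_cont h hc).mul (Pk_cont h hk)).sub ((Pk_cont h hc).mul (trw_cont h hk))).div
      ((Pk_cont h hk).pow 2) fun a ha => pow_ne_zero 2 (hne a ha)))
    (by
      intro s hs x hx
      have hx' := subset_closure hx
      have hP : Pk (fun i => u i s x) k ≠ 0 := (Pk_pos h hk hs hx').ne'
      have h1 := ((Pk_dt h hc hs hx').div (Pk_dt h hk hs hx') hP).const_mul (f x)
      refine h1.congr_deriv ?_
      congr 2
      simp only [W]
      ring) t ht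
  refine hD.congr_deriv ?_
  -- integration by parts
  have sne : ∀ x ∈ closure Ω, Pk (fun i => u i t x) k ≠ 0 := fun x hx => (Pk_pos h hk ht hx).ne'
  have cI := C1.inv' (Pk_C1 h hk ht) sne
  have c1 := hf.mul cI
  have c2 := hf.mul ((Pk_C1 h hc ht).mul (cI.mul cI))
  have i1 := hIbp p Ω q _ _ _ _ hΩ c1 (Rg_cont h hc ht) (W_cont h hc ht)
    (fun x hx => Rg_deriv h hc ht hx) (Rg_neu h hc ht)
  have i2 := hIbp p Ω q _ _ _ _ hΩ c2 (Rg_cont h hk ht) (W_cont h hk ht)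
    (fun x hx => Rg_deriv h hk ht hx) (Rg_neu h hk ht)
  have n1 := hΩ.integrableOn (c1.c0.mul (continuous_tr.comp_continuousOn (W_cont h hc ht)))
  have n2 := hΩ.integrableOn (c2.c0.mul (continuous_tr.comp_continuousOn (W_cont h hk ht)))
  have n3 := hΩ.integrableOn (c1.c1.inner (𝕜 := ℝ) (Rg_cont h hc ht))
  have n4 := hΩ.integrableOn (c2.c1.inner (𝕜 := ℝ) (Rg_cont h hk ht))
  have e1 := integral_sub n1 n2
  have e2 := integral_sub n4 n3
  have hm := hΩ.measurableSet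
  simp only [tr_W, Pi.mul_apply, Function.comp_apply] at e1 i1 i2
  rw [i1, i2, sub_neg_eq_add, neg_add_eq_sub, ← e2] at e1
  refine Eq.trans ?_ (e1.trans ?_)
  · refine setIntegral_congr_fun hm fun x hx => ?_
    have hP := sne x (subset_closure hx)
    simp only [W]
    field_simp
  · refine setIntegral_congr_fun hm fun x hx => ?_
    have hP := sne x (subset_closure hx)
    simp only [inner_add_left, real_inner_smul_left]
    rw [real_inner_comm (Rg ρ (fun i => v i t x) c) (Pg (fun i => v i t x) k),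
      real_inner_comm (Rg ρ (fun i => v i t x) k) (Pg (fun i => v i t x) c),
      real_inner_comm (Rg ρ (fun i => v i t x) k) (Pg (fun i => v i t x) k)]
    field_simp
    ring

end Pool.Agent.Lib.MP_4fbe7c_an.ND.H9
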